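import Pool.Agent.Helper39.CN.Step
import Pool.Agent.Helper39.CB.Main

/-!
# Project CN: the numbers `α`, from Keel's relations
-/

set_option autoImplicit false

namespace Pool.Agent.Helper39.CN

open Finset Pool.Agent.Helper88.CC Pool.Agent.Helper39.CB

variable {n : ℕ}

/-- indicator of the sets which contain `i` and `j` -/
def Qi (i j : Fin n) (S : Finset (Fin n)) : ℝ := if i ∈ S ∧ j ∈ S then 1 else 0

theorem Qi_nonneg (i j : Fin n) (S : Finset (Fin n)) : 0 ≤ Qi i j S := by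
  unfold Qi
  split_ifs <;> norm_num

theorem Qi_comm (i j : Fin n) (S : Finset (Fin n)) : Qi i j S = Qi j i S := by
  unfold Qi
  by_cases h : i ∈ S ∧ j ∈ S
  · rw [if_pos h, if_pos ⟨h.2, h.1⟩]
  · rw [if_neg h, if_neg (fun h' => h ⟨h'.2, h'.1⟩)]

theorem Qi_pair {i j : Fin n} (hij : i ≠ j) (c : Finset (Fin n) → ℝ) :
    ∑ S ∈ powersetCard 2 univ, c S * Qi i j S = c {i, j} := by
  rw [sum_eq_single {i, j}]
  · unfold Qi
    rw [if_pos ⟨by simp, by simp⟩, mul_one]
  · intro S hS hne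
    unfold Qi
    rw [if_neg, mul_zero]
    rintro ⟨hi, hj⟩
    apply hne
    symm
    apply eq_of_subset_of_card_le
    · intro x hx
      rw [mem_insert, mem_singleton] at hx
      rcases hx with rfl | rfl
      · exact hi
      · exact hj
    · rw [(mem_powersetCard.1 hS).2, card_pair hij]
  · intro h
    exact absurd (mem_powersetCard.2 ⟨subset_univ _, card_pair hij⟩) h

/-- the number `α i + α j` -/
noncomputable def RR (c : Finset (Fin n) → ℝ) (𝒮 : Finset (Finset (Fin n))) (i j : Fin n) : ℝ :=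
  c {i, j} + ∑ S ∈ 𝒮, c S * Qi i j S

theorem RR_comm (c : Finset (Fin n) → ℝ) (𝒮 : Finset (Finset (Fin n))) (i j : Fin n) :
    RR c 𝒮 i j = RR c 𝒮 j i := by
  unfold RR
  rw [pair_comm]
  congr 1
  exact sum_congr rfl fun S _ => by rw [Qi_comm]

/-- indicator of the sets which separate `i`, `j` from `k`, `l` and contain `i`, `j` -/
def Ii (i j k l : Fin n) (S : Finset (Fin n)) : ℝ :=
  if i ∈ S ∧ j ∈ S ∧ k ∉ S ∧ l ∉ S then 1 else 0

theorem Q_I (i j k l : Fin n) (S : Finset (Fin n)) :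
    Qi i j S + Qi k l S - Qi i k S - Qi j l S =
      Ii i j k l S + Ii i j k l Sᶜ - Ii i k j l S - Ii i k j l Sᶜ := by
  unfold Qi Ii
  simp only [mem_compl, not_not]
  by_cases h1 : i ∈ S <;> by_cases h2 : j ∈ S <;> by_cases h3 : k ∈ S <;> by_cases h4 : l ∈ S <;>
    simp [h1, h2, h3, h4]

theorem keelR (hn : 5 ≤ n) {c : Finset (Fin n) → ℝ} (hc : IsCurveClass c)
    {𝒮 : Finset (Finset (Fin n))}
    (hS3 : ∀ S ∈ 𝒮, 3 ≤ S.card ∧ 3 ≤ Sᶜ.card) (hSc : ∀ S ∈ 𝒮, Sᶜ ∉ 𝒮)
    (hsupp : ∀ S, 3 ≤ S.card → 3 ≤ Sᶜ.card → c S ≠ 0 → S ∈ 𝒮 ∨ Sᶜ ∈ 𝒮)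
    {i j k l : Fin n} (hij : i ≠ j) (hik : i ≠ k) (hil : i ≠ l) (hjk : j ≠ k) (hjl : j ≠ l)
    (hkl : k ≠ l) : RR c 𝒮 i j + RR c 𝒮 k l = RR c 𝒮 i k + RR c 𝒮 j l := by
  classical
  set K : Finset (Fin n) → ℝ := fun S => Qi i j S + Qi k l S - Qi i k S - Qi j l S with hKdef
  have hKI : ∀ S, K S = Ii i j k l S + Ii i j k l Sᶜ - Ii i k j l S - Ii i k j l Sᶜ :=
    fun S => Q_I i j k l S
  have hKc : ∀ S, K Sᶜ = K S := fun S => by
    rw [hKI, hKI, compl_compl]
    ring
  have hp := pairing hn hc.compl hc.small 𝒮 hS3 hSc hsupp hKc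
  have hI : ∀ i j k l : Fin n, ∑ S, c S * Ii i j k l Sᶜ = ∑ S, c S * Ii i j k l S := by
    intro i j k l
    rw [← sum_compl (fun S => c S * Ii i j k l S)]
    exact sum_congr rfl fun S _ => by rw [hc.compl]
  have hI2 : ∀ i j k l : Fin n, ∑ S, c S * Ii i j k l S =
      ∑ S ∈ univ.filter (fun S => i ∈ S ∧ j ∈ S ∧ k ∉ S ∧ l ∉ S), c S := by
    intro i j k l
    rw [sum_filter]
    apply sum_congr rfl
    intro S _
    unfold Ii
    split_ifs
    · rw [mul_one]
    · rw [mul_zero]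
  have h0 : ∑ S, c S * K S = 0 := by
    have h1 : ∑ S, c S * K S = ∑ S, c S * Ii i j k l S + ∑ S, c S * Ii i j k l Sᶜ -
        ∑ S, c S * Ii i k j l S - ∑ S, c S * Ii i k j l Sᶜ := by
      rw [← sum_add_distrib, ← sum_sub_distrib, ← sum_sub_distrib]
      apply sum_congr rfl
      intro S _
      rw [hKI]
      ring
    rw [h1, hI, hI, hI2, hI2, hc.keel i j k l hij hik hil hjk hjl hkl]
    ring
  have h2 : ∀ P : Finset (Finset (Fin n)), ∑ S ∈ P, c S * K S =
      ∑ S ∈ P, c S * Qi i j S + ∑ S ∈ P, c S * Qi k l S - ∑ S ∈ P, c S * Qi i k S -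
        ∑ S ∈ P, c S * Qi j l S := by
    intro P
    rw [← sum_add_distrib, ← sum_sub_distrib, ← sum_sub_distrib]
    apply sum_congr rfl
    intro S _
    simp only [hKdef]
    ring
  rw [h0, h2, h2, Qi_pair hij, Qi_pair hkl, Qi_pair hik, Qi_pair hjl] at hp
  unfold RR
  linarith

/-- a symmetric function with the four point relations is a sum of two terms -/
theorem exists_alpha (hn : 5 ≤ n) (R : Fin n → Fin n → ℝ) (hs : ∀ i j, R i j = R j i)
    (hR : ∀ i j k l : Fin n, i ≠ j → i ≠ k → i ≠ l → j ≠ k → j ≠ l → k ≠ l →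
      R i j + R k l = R i k + R j l) :
    ∃ α : Fin n → ℝ, ∀ i j, i ≠ j → α i + α j = R i j := by
  classical
  obtain ⟨p, q, s, hpq, hps, hqs⟩ : ∃ p q s : Fin n, p ≠ q ∧ p ≠ s ∧ q ≠ s :=
    ⟨⟨0, by omega⟩, ⟨1, by omega⟩, ⟨2, by omega⟩, by simp, by simp, by simp⟩
  have hD : ∀ j k k', j ≠ p → k ≠ p → k' ≠ p → j ≠ k → j ≠ k' →
      R p j + R p k - R j k = R p j + R p k' - R j k' := by
    intro j k k' h1 h2 h3 h4 h5
    by_cases h : k = k'
    · rw [h]
    · have := hR p k k' j h2.symm h3.symm h1.symm h h4.symm h5.symm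
      rw [hs k' j, hs k j] at this
      linarith
  have hDD : ∀ j k, j ≠ p → k ≠ p → j ≠ k →
      R p j + R p k - R j k = R p q + R p s - R q s := by
    intro j k h1 h2 h3
    by_cases h : j = q
    · subst h
      exact hD j k s h1 h2 hps.symm h3 hqs
    · have e1 := hD j k q h1 h2 hpq.symm h3 h
      have e2 := hD q j s hpq.symm h1 hps.symm (fun e => h e.symm) hqs
      rw [hs j q] at e1
      linarith
  refine ⟨fun i => if i = p then (R p q + R p s - R q s) / 2
    else R p i - (R p q + R p s - R q s) / 2, ?_⟩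
  intro i j hij
  show (if i = p then (R p q + R p s - R q s) / 2 else R p i - (R p q + R p s - R q s) / 2) +
    (if j = p then (R p q + R p s - R q s) / 2 else R p j - (R p q + R p s - R q s) / 2) = R i j
  by_cases h1 : i = p
  · subst h1
    rw [if_pos rfl, if_neg (fun h => hij h.symm)]
    ring
  · by_cases h2 : j = p
    · subst h2
      rw [if_neg h1, if_pos rfl, hs i j]
      ring
    · rw [if_neg h1, if_neg h2]
      have := hDD i j h1 h2 hij
      linarith

end Pool.Agent.Helper39.CN
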