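import Pool.Agent.Helper39.CN.Alpha

/-!
# Project CN: the weights, and the inequality for the whole set
-/

set_option autoImplicit false

namespace Pool.Agent.Helper39.CN

open Finset Pool.Agent.Helper88.CC Pool.Agent.Helper39.CB

variable {n : ℕ}

/-- the members which are used -/
def Tp (𝒯 : Finset (Finset (Fin n))) : Finset (Finset (Fin n)) :=
  𝒯.filter (fun T => T ≠ univ ∧ 2 ≤ T.card)

/-- the weight of a member -/
def wa (c : Finset (Fin n) → ℝ) (𝒮 : Finset (Finset (Fin n))) (T : Finset (Fin n)) : ℝ :=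
  if T ∈ 𝒮 then c T else 0

/-- the weight of a member without one point -/
def wm (c : Finset (Fin n) → ℝ) (𝒮 𝒯 : Finset (Finset (Fin n))) (T : Finset (Fin n))
    (i : Fin n) : ℝ :=
  if i ∈ T ∧ T.erase i ∈ 𝒮 ∧ T.erase i ∉ 𝒯 then c (T.erase i) else 0

theorem conv {𝒮 𝒯 : Finset (Finset (Fin n))}
    (hT : ∀ S ∈ 𝒯, ∀ S' ∈ 𝒯, S ⊆ S' ∨ S' ⊆ S ∨ (S ∩ S').card ≤ 1)
    (hS3 : ∀ S ∈ 𝒮, 3 ≤ S.card ∧ 3 ≤ Sᶜ.card)
    (hg : ∀ S ∈ 𝒮, S ∈ 𝒯 ∨ ∃ T ∈ 𝒯, ∃ i ∈ T, S = T.erase i)
    (c F : Finset (Fin n) → ℝ) :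
    ∑ S ∈ 𝒮, c S * F S =
      ∑ T ∈ Tp 𝒯, (wa c 𝒮 T * F T + ∑ i ∈ T, wm c 𝒮 𝒯 T i * F (T.erase i)) := by
  classical
  have h1 : ∀ S ∈ 𝒮, c S * F S = ∑ T ∈ Tp 𝒯, ((if T = S then c S * F S else 0) +
      ∑ i ∈ T, (if T.erase i = S ∧ S ∉ 𝒯 then c S * F S else 0)) := by
    intro S hS
    have hcard := hS3 S hS
    have hSu : S ≠ univ := fun h => by
      rw [h, compl_univ, card_empty] at hcard
      omega
    rw [sum_add_distrib]
    by_cases h : S ∈ 𝒯
    · have hm : S ∈ Tp 𝒯 := by
        unfold Tp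
        rw [mem_filter]
        exact ⟨h, hSu, by omega⟩
      rw [sum_ite_eq' (Tp 𝒯) S (fun _ => c S * F S), if_pos hm]
      have : ∑ T ∈ Tp 𝒯, ∑ i ∈ T, (if T.erase i = S ∧ S ∉ 𝒯 then c S * F S else 0) = 0 := by
        apply sum_eq_zero
        intro T _
        apply sum_eq_zero
        intro i _
        rw [if_neg (fun h' => h'.2 h)]
      rw [this, add_zero]
    · obtain ⟨T, hTT, i, hi, hST⟩ := (hg S hS).resolve_left h
      have hTc : T.card = S.card + 1 := by
        rw [hST, card_erase_of_mem hi]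
        have : 0 < T.card := card_pos.2 ⟨i, hi⟩
        omega
      have hTu : T ≠ univ := fun h' => by
        have h2 : Sᶜ ⊆ {i} := by
          intro x hx
          rw [mem_compl] at hx
          rw [mem_singleton]
          by_contra hne
          apply hx
          rw [hST, h', mem_erase]
          exact ⟨hne, mem_univ x⟩
        have := card_le_card h2
        rw [card_singleton] at this
        omega
      have hm : T ∈ Tp 𝒯 := by
        unfold Tp
        rw [mem_filter]
        exact ⟨hTT, hTu, by omega⟩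
      have e1 : ∑ T ∈ Tp 𝒯, (if T = S then c S * F S else 0) = 0 := by
        apply sum_eq_zero
        intro T' hT'
        rw [if_neg]
        rintro rfl
        exact h (mem_filter.1 hT').1
      rw [e1, zero_add, sum_eq_single T]
      · rw [sum_eq_single i]
        · rw [if_pos ⟨hST.symm, h⟩]
        · intro j hj hne
          rw [if_neg]
          rintro ⟨h', _⟩
          have : i ∈ T.erase j := mem_erase.2 ⟨fun e => hne e.symm, hi⟩
          rw [h', hST] at this
          exact notMem_erase i T this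
        · intro h'
          exact absurd hi h'
      · intro T' hT' hne
        apply sum_eq_zero
        intro j hj
        rw [if_neg]
        rintro ⟨h', _⟩
        have hT'T := (mem_filter.1 hT').1
        have hT'c : T'.card = S.card + 1 := by
          rw [← h', card_erase_of_mem hj]
          have : 0 < T'.card := card_pos.2 ⟨j, hj⟩
          omega
        have h2 : S ⊆ T' ∩ T := by
          intro x hx
          rw [mem_inter]
          constructor
          · rw [← h'] at hx
            exact (mem_erase.1 hx).2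
          · rw [hST] at hx
            exact (mem_erase.1 hx).2
        have h3 := card_le_card h2
        rcases hT T' hT'T T hTT with h4 | h4 | h4
        · exact hne (eq_of_subset_of_card_le h4 (by omega))
        · exact hne (eq_of_subset_of_card_le h4 (by omega)).symm
        · omega
      · intro h'
        exact absurd hm h'
  rw [sum_congr rfl h1, sum_comm]
  apply sum_congr rfl
  intro T hTT
  rw [sum_add_distrib, sum_comm]
  congr 1
  · rw [sum_ite_eq 𝒮 T (fun S => c S * F S)]
    unfold wa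
    split_ifs
    · rfl
    · rw [zero_mul]
  · apply sum_congr rfl
    intro i hi
    have h2 : ∀ S ∈ 𝒮, (if T.erase i = S ∧ S ∉ 𝒯 then c S * F S else 0) =
        if T.erase i = S then (if S ∉ 𝒯 then c S * F S else 0) else 0 := by
      intro S _
      by_cases h3 : T.erase i = S
      · by_cases h4 : S ∉ 𝒯
        · rw [if_pos ⟨h3, h4⟩, if_pos h3, if_pos h4]
        · rw [if_neg (fun h => h4 h.2), if_pos h3, if_neg h4]
      · rw [if_neg (fun h => h3 h.1), if_neg h3]
    rw [sum_congr rfl h2, sum_ite_eq 𝒮 (T.erase i) (fun S => if S ∉ 𝒯 then c S * F S else 0)]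
    unfold wm
    by_cases h3 : T.erase i ∈ 𝒮
    · by_cases h4 : T.erase i ∉ 𝒯
      · rw [if_pos h3, if_pos h4, if_pos ⟨hi, h3, h4⟩]
      · rw [if_pos h3, if_neg h4, if_neg (fun h => h4 h.2.2), zero_mul]
    · rw [if_neg h3, if_neg (fun h => h3 h.2.1), zero_mul]

theorem fam_Tp {𝒯 : Finset (Finset (Fin n))}
    (hT : ∀ S ∈ 𝒯, ∀ S' ∈ 𝒯, S ⊆ S' ∨ S' ⊆ S ∨ (S ∩ S').card ≤ 1) : Fam (Tp 𝒯) := by
  constructor
  · intro S hS S' hS'
    exact hT S (mem_filter.1 hS).1 S' (mem_filter.1 hS').1
  · intro S hS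
    exact (mem_filter.1 hS).2.2
  · intro S hS
    exact (mem_filter.1 hS).2.1

/-- the function `tp` from the indicator -/
theorem tp_Q (a : Finset (Fin n) → ℝ) (m : Finset (Fin n) → Fin n → ℝ) (i j : Fin n)
    (T : Finset (Fin n)) :
    a T * Qi i j T + ∑ l ∈ T, m T l * Qi i j (T.erase l) = tp a m i j T := by
  classical
  unfold tp
  by_cases h : i ∈ T ∧ j ∈ T
  · rw [if_pos h]
    have e1 : Qi i j T = 1 := if_pos h
    rw [e1, mul_one]
    congr 1
    have h1 : (T.erase i).erase j ⊆ T := (erase_subset j _).trans (erase_subset i T)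
    rw [← sum_subset h1]
    · apply sum_congr rfl
      intro l hl
      rw [mem_erase, mem_erase] at hl
      have e2 : Qi i j (T.erase l) = 1 := by
        unfold Qi
        rw [if_pos ⟨mem_erase.2 ⟨fun e => hl.2.1 e.symm, h.1⟩,
          mem_erase.2 ⟨fun e => hl.1 e.symm, h.2⟩⟩]
      rw [e2, mul_one]
    · intro l hl hl'
      have e2 : Qi i j (T.erase l) = 0 := by
        unfold Qi
        rw [if_neg]
        rintro ⟨h2, h3⟩
        apply hl'
        rw [mem_erase] at h2 h3
        rw [mem_erase, mem_erase]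
        exact ⟨fun e => h3.1 e.symm, fun e => h2.1 e.symm, hl⟩
      rw [e2, mul_zero]
  · rw [if_neg h]
    have e1 : Qi i j T = 0 := if_neg h
    rw [e1, mul_zero, zero_add]
    apply sum_eq_zero
    intro l _
    have e2 : Qi i j (T.erase l) = 0 := by
      unfold Qi
      rw [if_neg]
      rintro ⟨h2, h3⟩
      exact h ⟨(mem_erase.1 h2).2, (mem_erase.1 h3).2⟩
    rw [e2, mul_zero]

theorem K_univ {K : Finset (Fin n) → ℝ} (hK : FNef K) : K univ = 0 := by
  have h := hK.compl ∅
  rw [compl_empty, hK.empty] at h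
  exact h

theorem K_erase {K : Finset (Fin n) → ℝ} (hK : FNef K) (i : Fin n) : K (univ.erase i) = 0 := by
  have h := hK.compl {i}
  rw [hK.singleton] at h
  have e : (univ.erase i : Finset (Fin n)) = {i}ᶜ := by
    ext x
    rw [mem_erase, mem_compl, mem_singleton]
    exact ⟨fun h => h.1, fun h => ⟨h, mem_univ x⟩⟩
  rw [e]
  exact h

theorem hh_univ {K : Finset (Fin n) → ℝ} (hK : FNef K) (i : Fin n) :
    hh K i (univ.erase i) = GG K i := by
  unfold hh GG
  rw [K_erase hK, insert_erase (mem_univ i), K_univ hK]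
  ring

theorem VV_univ_erase {K : Finset (Fin n) → ℝ} (hK : FNef K) (r : Fin n) :
    2 * VV K (univ.erase r) = ∑ j ∈ univ.erase r, GG K j - GG K r := by
  have h1 := sum_pairs (univ.erase r : Finset (Fin n)) K
  have h2 : ∀ i ∈ (univ.erase r : Finset (Fin n)),
      ∑ j ∈ (univ.erase r).erase i, K {i, j} = GG K i - K {r, i} := by
    intro i hi
    unfold GG
    rw [mem_erase] at hi
    rw [erase_right_comm]
    have h3 := sum_erase_add (univ.erase i : Finset (Fin n)) (fun j => K {i, j})
      (mem_erase.2 ⟨fun e => hi.1 e.symm, mem_univ r⟩)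
    rw [← h3, pair_comm r i]
    ring
  rw [sum_congr rfl h2, sum_sub_distrib] at h1
  unfold VV
  rw [K_erase hK]
  have h4 : GG K r = ∑ i ∈ univ.erase r, K {r, i} := rfl
  rw [h4]
  linarith

theorem ineq {K : Finset (Fin n) → ℝ} (hK : FNef K) {a : Finset (Fin n) → ℝ}
    {m : Finset (Fin n) → Fin n → ℝ} (ha : ∀ T, 0 ≤ a T) (hm : ∀ T i, 0 ≤ m T i)
    {𝒯 : Finset (Finset (Fin n))} (hF : Fam 𝒯) (α : Fin n → ℝ)
    (hα : ∀ i j, i ≠ j → ∑ T ∈ 𝒯, tp a m i j T ≤ α i + α j) :
    ∑ T ∈ 𝒯, dg K a m T ≤ ∑ i, α i * GG K i := by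
  obtain ⟨h1, h2⟩ := whole hK ha hm hF
  by_cases h : ∀ i, 0 ≤ α i
  · have h3 := h1 0 α le_rfl (fun i _ => h i) (fun i _ j _ hij => by
      have := hα i j hij
      linarith)
    rw [zero_mul, zero_add] at h3
    refine h3.trans (le_of_eq ?_)
    exact sum_congr rfl fun i _ => by rw [hh_univ hK]
  · push Not at h
    obtain ⟨r, hr⟩ := h
    have h3 := h2 r (-(2 * α r)) (fun j => α j + α r) (mem_univ r) (by linarith)
      (fun j hj => by
        have := hα r j (fun e => (mem_erase.1 hj).1 e.symm)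
        linarith)
      (fun i _ j _ hij => by
        have := hα i j hij
        linarith)
    refine h3.trans (le_of_eq ?_)
    have h4 := VV_univ_erase hK r
    have h5 : ∑ j ∈ univ.erase r, (α j + α r) * hh K j (univ.erase j) =
        ∑ j ∈ univ.erase r, α j * GG K j + α r * ∑ j ∈ univ.erase r, GG K j := by
      rw [mul_sum, ← sum_add_distrib]
      apply sum_congr rfl
      intro j _
      rw [hh_univ hK]
      ring
    rw [h5, ← sum_erase_add (univ : Finset (Fin n)) (fun i => α i * GG K i) (mem_univ r)]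
    have h6 : -(2 * α r) * VV K (univ.erase r) = -α r * (2 * VV K (univ.erase r)) := by ring
    rw [h6, h4]
    ring

end Pool.Agent.Helper39.CN
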