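import Pool.Agent.Helper39.CN.Conv

/-!
# Project CN: curve classes supported on nested or almost disjoint strata are in the F-cone
-/

set_option autoImplicit false

namespace Pool.Agent.Helper39.CN

open Finset Pool.Agent.Helper88.CC Pool.Agent.Helper39.CB

variable {n : ℕ}

theorem pairs_sum (c K : Finset (Fin n) → ℝ) (𝒮 : Finset (Finset (Fin n))) (α : Fin n → ℝ)
    (hα : ∀ i j, i ≠ j → α i + α j = RR c 𝒮 i j) :
    ∑ S ∈ powersetCard 2 univ, c S * K S =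
      ∑ i, α i * GG K i - ∑ S ∈ 𝒮, c S * ∑ T ∈ powersetCard 2 S, K T := by
  classical
  have hP := sum_pairs (univ : Finset (Fin n)) (fun S => c S * K S)
  have h1 : ∀ i, ∑ j ∈ univ.erase i, c {i, j} * K {i, j} =
      (∑ j ∈ univ.erase i, α i * K {i, j} + ∑ j ∈ univ.erase i, α j * K {i, j}) -
        ∑ j ∈ univ.erase i, ∑ S ∈ 𝒮, c S * (Qi i j S * K {i, j}) := by
    intro i
    rw [← sum_add_distrib, ← sum_sub_distrib]
    apply sum_congr rfl
    intro j hj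
    rw [mem_erase] at hj
    have := hα i j (fun e => hj.1 e.symm)
    unfold RR at this
    have h2 : c {i, j} = α i + α j - ∑ S ∈ 𝒮, c S * Qi i j S := by linarith
    rw [h2]
    have h3 : ∑ S ∈ 𝒮, c S * (Qi i j S * K {i, j}) = (∑ S ∈ 𝒮, c S * Qi i j S) * K {i, j} := by
      rw [sum_mul]
      exact sum_congr rfl fun S _ => by ring
    rw [h3]
    ring
  have h3 : ∀ (G : Fin n → Fin n → ℝ), ∑ i, ∑ j ∈ univ.erase i, G i j =
      ∑ i, ∑ j, (if i = j then 0 else G i j) := by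
    intro G
    apply sum_congr rfl
    intro i _
    rw [← sum_erase_add (univ : Finset (Fin n)) (fun j => if i = j then 0 else G i j)
      (mem_univ i)]
    rw [if_pos rfl, add_zero]
    apply sum_congr rfl
    intro j hj
    rw [mem_erase] at hj
    rw [if_neg (fun e => hj.1 e.symm)]
  have h2 : ∑ i, ∑ j ∈ univ.erase i, α j * K {i, j} =
      ∑ i, ∑ j ∈ univ.erase i, α i * K {i, j} := by
    rw [h3, h3, sum_comm]
    apply sum_congr rfl
    intro i _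
    apply sum_congr rfl
    intro j _
    by_cases h : i = j
    · rw [if_pos h, if_pos h.symm]
    · rw [if_neg h, if_neg (fun e => h e.symm), pair_comm]
  have h5 : ∀ i, ∑ j ∈ univ.erase i, α i * K {i, j} = α i * GG K i := by
    intro i
    unfold GG
    rw [mul_sum]
  have h6 : ∑ i, ∑ j ∈ univ.erase i, ∑ S ∈ 𝒮, c S * (Qi i j S * K {i, j}) =
      2 * ∑ S ∈ 𝒮, c S * ∑ T ∈ powersetCard 2 S, K T := by
    have h7 : ∀ S ∈ 𝒮, ∑ i, ∑ j ∈ univ.erase i, c S * (Qi i j S * K {i, j}) =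
        2 * (c S * ∑ T ∈ powersetCard 2 S, K T) := by
      intro S _
      have h8 := sum_pairs (univ : Finset (Fin n)) (fun T => if T ⊆ S then K T else 0)
      have h9 : ∑ T ∈ powersetCard 2 univ, (if T ⊆ S then K T else 0) =
          ∑ T ∈ powersetCard 2 S, K T := by
        rw [← sum_filter]
        apply sum_congr _ (fun _ _ => rfl)
        ext T
        rw [mem_filter, mem_powersetCard, mem_powersetCard]
        exact ⟨fun h => ⟨h.2, h.1.2⟩, fun h => ⟨⟨subset_univ T, h.2⟩, h.1⟩⟩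
      rw [h9] at h8
      have h10 : ∀ i j : Fin n, c S * (Qi i j S * K {i, j}) =
          c S * (if ({i, j} : Finset (Fin n)) ⊆ S then K {i, j} else 0) := by
        intro i j
        congr 1
        unfold Qi
        by_cases h : i ∈ S ∧ j ∈ S
        · rw [if_pos h, if_pos (by
            intro x hx
            rw [mem_insert, mem_singleton] at hx
            rcases hx with rfl | rfl
            · exact h.1
            · exact h.2), one_mul]
        · rw [if_neg h, if_neg (fun h' => h ⟨h' (by simp), h' (by simp)⟩), zero_mul]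
      simp only [h10, ← mul_sum]
      rw [h8]
      ring
    rw [mul_sum, ← sum_congr rfl h7, sum_comm]
    apply sum_congr rfl
    intro i _
    rw [sum_comm]
  rw [sum_congr rfl (fun i _ => h1 i), sum_sub_distrib, sum_add_distrib, h2, h6,
    sum_congr rfl (fun i _ => h5 i)] at hP
  linarith

/-- **Main theorem of project CN.** -/
theorem main (hn : 5 ≤ n) (c : Finset (Fin n) → ℝ) (hc : IsCurveClass c) (h0 : ∀ S, 0 ≤ c S)
    (𝒯 : Finset (Finset (Fin n)))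
    (hT : ∀ S ∈ 𝒯, ∀ S' ∈ 𝒯, S ⊆ S' ∨ S' ⊆ S ∨ (S ∩ S').card ≤ 1)
    (hsupp : ∀ S, 3 ≤ S.card → 3 ≤ Sᶜ.card → c S ≠ 0 →
      ∃ R, (R = S ∨ R = Sᶜ) ∧ (R ∈ 𝒯 ∨ ∃ i ∉ R, insert i R ∈ 𝒯)) :
    InFCone c := by
  classical
  set Good : Finset (Fin n) → Prop := fun R => R ∈ 𝒯 ∨ ∃ i ∉ R, insert i R ∈ 𝒯 with hGood
  set p : Fin n := ⟨0, by omega⟩
  set 𝒮 : Finset (Finset (Fin n)) := univ.filter (fun S => 3 ≤ S.card ∧ 3 ≤ Sᶜ.card ∧
    c S ≠ 0 ∧ Good S ∧ (Good Sᶜ → p ∈ S)) with hS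
  have hmem : ∀ S, S ∈ 𝒮 ↔ 3 ≤ S.card ∧ 3 ≤ Sᶜ.card ∧
    c S ≠ 0 ∧ Good S ∧ (Good Sᶜ → p ∈ S) := fun S => by
    rw [hS, mem_filter]
    exact ⟨fun h => h.2, fun h => ⟨mem_univ S, h⟩⟩
  have hS3 : ∀ S ∈ 𝒮, 3 ≤ S.card ∧ 3 ≤ Sᶜ.card := fun S h => by
    rw [hmem] at h
    exact ⟨h.1, h.2.1⟩
  have hSc : ∀ S ∈ 𝒮, Sᶜ ∉ 𝒮 := fun S h h' => by
    rw [hmem] at h h'
    obtain ⟨_, _, _, h1, h2⟩ := h
    obtain ⟨_, _, _, h3, h4⟩ := h'
    rw [compl_compl] at h4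
    have h5 := h2 h3
    have h6 := h4 h1
    rw [mem_compl] at h6
    exact h6 h5
  have hs : ∀ S, 3 ≤ S.card → 3 ≤ Sᶜ.card → c S ≠ 0 → S ∈ 𝒮 ∨ Sᶜ ∈ 𝒮 := by
    intro S h1 h2 h3
    have h3' : c Sᶜ ≠ 0 := by rwa [hc.compl]
    have h1' : 3 ≤ Sᶜᶜ.card := by rwa [compl_compl]
    rw [hmem, hmem]
    by_cases g1 : Good S
    · by_cases g2 : Good Sᶜ
      · by_cases hp : p ∈ S
        · exact Or.inl ⟨h1, h2, h3, g1, fun _ => hp⟩
        · exact Or.inr ⟨h2, h1', h3', g2, fun _ => mem_compl.2 hp⟩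
      · exact Or.inl ⟨h1, h2, h3, g1, fun h => absurd h g2⟩
    · have g2 : Good Sᶜ := by
        obtain ⟨R, hR, hR2⟩ := hsupp S h1 h2 h3
        rcases hR with rfl | rfl
        · exact absurd hR2 g1
        · exact hR2
      exact Or.inr ⟨h2, h1', h3', g2, fun h => by
        rw [compl_compl] at h
        exact absurd h g1⟩
  have hg : ∀ S ∈ 𝒮, S ∈ 𝒯 ∨ ∃ T ∈ 𝒯, ∃ i ∈ T, S = T.erase i := by
    intro S h
    rw [hmem] at h
    rcases h.2.2.2.1 with h1 | ⟨i, hi, h1⟩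
    · exact Or.inl h1
    · exact Or.inr ⟨insert i S, h1, i, mem_insert_self i S, (erase_insert hi).symm⟩
  obtain ⟨α, hα⟩ := exists_alpha hn (RR c 𝒮) (RR_comm c 𝒮)
    (fun i j k l h1 h2 h3 h4 h5 h6 => keelR hn hc hS3 hSc hs h1 h2 h3 h4 h5 h6)
  apply dual_criterion c hc.compl (fun S hS => by
    unfold Proper at hS
    by_cases h : S.card ≤ 1
    · exact hc.small S h
    · have h2 : Sᶜ.card ≤ 1 := by
        by_contra h3
        exact hS ⟨by omega, by omega⟩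
      rw [← hc.compl]
      exact hc.small _ h2)
  intro K hK
  rw [pairing hn hc.compl hc.small 𝒮 hS3 hSc hs hK.compl]
  have ha : ∀ T, 0 ≤ wa c 𝒮 T := fun T => by
    unfold wa
    split_ifs
    · exact h0 T
    · exact le_rfl
  have hm : ∀ T i, 0 ≤ wm c 𝒮 𝒯 T i := fun T i => by
    unfold wm
    split_ifs
    · exact h0 _
    · exact le_rfl
  have h1 : ∀ i j, i ≠ j →
      ∑ T ∈ Tp 𝒯, tp (wa c 𝒮) (wm c 𝒮 𝒯) i j T ≤ α i + α j := by
    intro i j hij
    rw [hα i j hij]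
    unfold RR
    rw [conv hT hS3 hg c (Qi i j), sum_congr rfl (fun T _ => tp_Q (wa c 𝒮) (wm c 𝒮 𝒯) i j T)]
    linarith [h0 {i, j}]
  have h2 := ineq hK ha hm (fam_Tp hT) α h1
  have h3 : ∑ S ∈ 𝒮, c S * VV K S = ∑ T ∈ Tp 𝒯, dg K (wa c 𝒮) (wm c 𝒮 𝒯) T :=
    conv hT hS3 hg c (VV K)
  have h4 := pairs_sum c K 𝒮 α (fun i j hij => hα i j hij)
  have h5 : ∑ S ∈ 𝒮, c S * VV K S =
      ∑ S ∈ 𝒮, c S * ∑ T ∈ powersetCard 2 S, K T - ∑ S ∈ 𝒮, c S * K S := by
    rw [← sum_sub_distrib]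
    apply sum_congr rfl
    intro S _
    unfold VV
    ring
  rw [h4]
  linarith

end Pool.Agent.Helper39.CN
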