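import Pool.Agent.Helper39.CN.Sup

/-!
# Project CN: the recursion over a family of nested or almost disjoint sets
-/

set_option autoImplicit false

namespace Pool.Agent.Helper39.CN

open Finset Pool.Agent.Helper88.CC Pool.Agent.Helper39.CB

variable {n : ℕ}

/-- Any two members are nested or meet in at most one point. -/
structure Fam (𝒯 : Finset (Finset (Fin n))) : Prop where
  nest : ∀ S ∈ 𝒯, ∀ S' ∈ 𝒯, S ⊆ S' ∨ S' ⊆ S ∨ (S ∩ S').card ≤ 1
  two : ∀ S ∈ 𝒯, 2 ≤ S.card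
  top : ∀ S ∈ 𝒯, S ≠ univ

/-- the members below `W` -/
def fle (𝒯 : Finset (Finset (Fin n))) (W : Finset (Fin n)) : Finset (Finset (Fin n)) :=
  𝒯.filter (fun T => T ⊆ W)

/-- the members strictly below `W` -/
def flt (𝒯 : Finset (Finset (Fin n))) (W : Finset (Fin n)) : Finset (Finset (Fin n)) :=
  𝒯.filter (fun T => T ⊂ W)

open Classical in
/-- the maximal members strictly below `W` -/
noncomputable def ch (𝒯 : Finset (Finset (Fin n))) (W : Finset (Fin n)) :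
    Finset (Finset (Fin n)) :=
  (flt 𝒯 W).filter (fun C => Maximal (fun T => T ∈ flt 𝒯 W) C)

theorem mem_fle {𝒯 : Finset (Finset (Fin n))} {W T : Finset (Fin n)} :
    T ∈ fle 𝒯 W ↔ T ∈ 𝒯 ∧ T ⊆ W := mem_filter

theorem mem_flt {𝒯 : Finset (Finset (Fin n))} {W T : Finset (Fin n)} :
    T ∈ flt 𝒯 W ↔ T ∈ 𝒯 ∧ T ⊂ W := mem_filter

theorem mem_ch {𝒯 : Finset (Finset (Fin n))} {W C : Finset (Fin n)} (h : C ∈ ch 𝒯 W) :
    C ∈ 𝒯 ∧ C ⊂ W ∧ ∀ T ∈ flt 𝒯 W, C ⊆ T → T ⊆ C := by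
  classical
  unfold ch at h
  rw [mem_filter, mem_flt] at h
  exact ⟨h.1.1, h.1.2, fun T hT hCT => h.2.2 hT hCT⟩

theorem ch_pair {𝒯 : Finset (Finset (Fin n))} (hF : Fam 𝒯) {W C C' : Finset (Fin n)}
    (h : C ∈ ch 𝒯 W) (h' : C' ∈ ch 𝒯 W) (hne : C ≠ C') : (C ∩ C').card ≤ 1 := by
  obtain ⟨h1, h2, h3⟩ := mem_ch h
  obtain ⟨h1', h2', h3'⟩ := mem_ch h'
  rcases hF.nest C h1 C' h1' with h4 | h4 | h4
  · exact absurd (Subset.antisymm h4 (h3 C' (mem_flt.2 ⟨h1', h2'⟩) h4)) hne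
  · exact absurd (Subset.antisymm (h3' C (mem_flt.2 ⟨h1, h2⟩) h4) h4) hne
  · exact h4

/-- sums over the members below `W`, by the maximal ones -/
theorem sum_ch {𝒯 : Finset (Finset (Fin n))} (hF : Fam 𝒯) (W : Finset (Fin n))
    (g : Finset (Fin n) → ℝ) : ∑ T ∈ flt 𝒯 W, g T = ∑ C ∈ ch 𝒯 W, ∑ T ∈ fle 𝒯 C, g T := by
  classical
  rw [← sum_biUnion]
  · congr 1
    ext T
    rw [mem_biUnion]
    constructor
    · intro hT
      obtain ⟨C, hTC, hC⟩ := (flt 𝒯 W).exists_le_maximal hT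
      refine ⟨C, ?_, mem_fle.2 ⟨(mem_flt.1 hT).1, hTC⟩⟩
      unfold ch
      rw [mem_filter]
      exact ⟨hC.1, hC⟩
    · rintro ⟨C, hC, hT⟩
      rw [mem_fle] at hT
      exact mem_flt.2 ⟨hT.1, hT.2.trans_ssubset (mem_ch hC).2.1⟩
  · intro C hC C' hC' hne
    show Disjoint (fle 𝒯 C) (fle 𝒯 C')
    rw [disjoint_left]
    intro T hT hT'
    rw [mem_fle] at hT hT'
    have h1 := ch_pair hF (mem_coe.1 hC) (mem_coe.1 hC') hne
    have h2 := hF.two T hT.1
    have h3 := card_le_card (subset_inter hT.2 hT'.2)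
    omega

section

variable (K : Finset (Fin n) → ℝ) (a : Finset (Fin n) → ℝ) (m : Finset (Fin n) → Fin n → ℝ)

/-- the degree (up to sign) of one member -/
noncomputable def dg (T : Finset (Fin n)) : ℝ :=
  a T * VV K T + ∑ i ∈ T, m T i * VV K (T.erase i)

/-- the contribution of one member to the pair `i`, `j` -/
noncomputable def tp (i j : Fin n) (T : Finset (Fin n)) : ℝ :=
  if i ∈ T ∧ j ∈ T then a T + ∑ l ∈ (T.erase i).erase j, m T l else 0

end

variable {K : Finset (Fin n) → ℝ} {a : Finset (Fin n) → ℝ} {m : Finset (Fin n) → Fin n → ℝ}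

theorem tp_nonneg (ha : ∀ T, 0 ≤ a T) (hm : ∀ T i, 0 ≤ m T i) (i j : Fin n)
    (T : Finset (Fin n)) : 0 ≤ tp a m i j T := by
  unfold tp
  split_ifs
  · exact add_nonneg (ha T) (sum_nonneg fun l _ => hm T l)
  · exact le_rfl

/-- the main claims for the members in `F`, `F` consisting of members below `W` -/
def R1 (K : Finset (Fin n) → ℝ) (a : Finset (Fin n) → ℝ) (m : Finset (Fin n) → Fin n → ℝ)
    (F : Finset (Finset (Fin n))) (W : Finset (Fin n)) : Prop :=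
  ∀ (ρ : ℝ) (α : Fin n → ℝ), 0 ≤ ρ → (∀ i ∈ W, 0 ≤ α i) →
    (∀ i ∈ W, ∀ j ∈ W, i ≠ j → ∑ T ∈ F, tp a m i j T ≤ α i + α j + ρ) →
    ∑ T ∈ F, dg K a m T ≤ ρ * VV K W + ∑ i ∈ W, α i * hh K i (W.erase i)

/-- the same with a point `r` of weight zero -/
def R2 (K : Finset (Fin n) → ℝ) (a : Finset (Fin n) → ℝ) (m : Finset (Fin n) → Fin n → ℝ)
    (F : Finset (Finset (Fin n))) (W : Finset (Fin n)) : Prop :=
  ∀ (r : Fin n) (ρ : ℝ) (α : Fin n → ℝ), r ∈ W → 0 ≤ ρ →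
    (∀ j ∈ W.erase r, ∑ T ∈ F, tp a m r j T ≤ α j) →
    (∀ i ∈ W.erase r, ∀ j ∈ W.erase r, i ≠ j → ∑ T ∈ F, tp a m i j T ≤ α i + α j + ρ) →
    ∑ T ∈ F, dg K a m T ≤ ρ * VV K (W.erase r) + ∑ j ∈ W.erase r, α j * hh K j (W.erase j)

theorem fle_le_flt {𝒯 : Finset (Finset (Fin n))} {W C : Finset (Fin n)} (hC : C ∈ ch 𝒯 W)
    (g : Finset (Fin n) → ℝ) (hg : ∀ T, 0 ≤ g T) : ∑ T ∈ fle 𝒯 C, g T ≤ ∑ T ∈ flt 𝒯 W, g T := by
  apply sum_le_sum_of_subset_of_nonneg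
  · intro T hT
    rw [mem_fle] at hT
    exact mem_flt.2 ⟨hT.1, hT.2.trans_ssubset (mem_ch hC).2.1⟩
  · intro T _ _
    exact hg T

/-- the row inequality of the children -/
theorem row_ch (hK : FNef K) {𝒯 : Finset (Finset (Fin n))} (hF : Fam 𝒯) (W : Finset (Fin n))
    (i : Fin n) : ∑ C ∈ (ch 𝒯 W).filter (fun C => i ∈ C), hh K i (C.erase i) ≤
      hh K i (W.erase i) := by
  classical
  apply hsup hK ((ch 𝒯 W).filter (fun C => i ∈ C)) (fun C : Finset (Fin n) => C.erase i)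
    (W.erase i) (notMem_erase i W)
  · intro C hC
    exact erase_subset_erase i (mem_ch (mem_filter.1 hC).1).2.1.subset
  · intro C hC C' hC' hne
    rw [mem_filter] at hC hC'
    rw [disjoint_left]
    intro z hz hz'
    rw [mem_erase] at hz hz'
    have h5 : ({i, z} : Finset (Fin n)) ⊆ C ∩ C' := by
      intro u hu
      rw [mem_insert, mem_singleton] at hu
      rw [mem_inter]
      rcases hu with rfl | rfl
      · exact ⟨hC.2, hC'.2⟩
      · exact ⟨hz.2, hz'.2⟩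
    have h6 := card_le_card h5
    rw [card_pair (fun h => hz.1 h.symm)] at h6
    have := ch_pair hF hC.1 hC'.1 hne
    omega

/-- exchange of the sums over the children and their points -/
theorem swap_ch {𝒯 : Finset (Finset (Fin n))} (W X : Finset (Fin n))
    (g : Fin n → ℝ) (H : Fin n → Finset (Fin n) → ℝ) :
    ∑ C ∈ ch 𝒯 W, ∑ i ∈ X.filter (fun i => i ∈ C), g i * H i C =
      ∑ i ∈ X, g i * ∑ C ∈ (ch 𝒯 W).filter (fun C => i ∈ C), H i C := by
  classical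
  have h1 : ∀ C ∈ ch 𝒯 W, ∑ i ∈ X.filter (fun i => i ∈ C), g i * H i C =
      ∑ i ∈ X, if i ∈ C then g i * H i C else 0 := fun C _ => by rw [sum_filter]
  rw [sum_congr rfl h1, sum_comm]
  apply sum_congr rfl
  intro i _
  rw [mul_sum, sum_filter]

/-- splitting at the maximal members, first form -/
theorem split1 (hK : FNef K) {𝒯 : Finset (Finset (Fin n))} (hF : Fam 𝒯) (ha : ∀ T, 0 ≤ a T)
    (hm : ∀ T i, 0 ≤ m T i) (W : Finset (Fin n))
    (ih : ∀ C ∈ ch 𝒯 W, R1 K a m (fle 𝒯 C) C) : R1 K a m (flt 𝒯 W) W := by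
  classical
  intro ρ α hρ hα ht
  rw [sum_ch hF W (fun T => dg K a m T)]
  have h1 : ∀ C ∈ ch 𝒯 W, ∑ T ∈ fle 𝒯 C, dg K a m T ≤
      ρ * VV K C + ∑ i ∈ W.filter (fun i => i ∈ C), α i * hh K i (C.erase i) := by
    intro C hC
    have hCW := (mem_ch hC).2.1.subset
    have h2 := ih C hC ρ α hρ (fun i hi => hα i (hCW hi)) (fun i hi j hj hij =>
      (fle_le_flt hC (tp a m i j) (tp_nonneg ha hm i j)).trans (ht i (hCW hi) j (hCW hj) hij))
    have h3 : W.filter (fun i => i ∈ C) = C := by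
      ext i
      rw [mem_filter]
      exact ⟨fun h => h.2, fun h => ⟨hCW h, h⟩⟩
    rw [h3]
    exact h2
  refine (sum_le_sum h1).trans ?_
  rw [sum_add_distrib, swap_ch W W α (fun i C => hh K i (C.erase i)), ← mul_sum]
  have h4 := Vsup hK (ch 𝒯 W) W (fun C => C) (fun C hC => (mem_ch hC).2.1.subset)
    (fun C hC C' hC' hne => ch_pair hF hC hC' hne)
  have h5 : ∑ i ∈ W, α i * ∑ C ∈ (ch 𝒯 W).filter (fun C => i ∈ C), hh K i (C.erase i) ≤
      ∑ i ∈ W, α i * hh K i (W.erase i) :=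
    sum_le_sum fun i hi => mul_le_mul_of_nonneg_left (row_ch hK hF W i) (hα i hi)
  linarith [mul_le_mul_of_nonneg_left h4 hρ]

/-- splitting at the maximal members, second form -/
theorem split2 (hK : FNef K) {𝒯 : Finset (Finset (Fin n))} (hF : Fam 𝒯) (ha : ∀ T, 0 ≤ a T)
    (hm : ∀ T i, 0 ≤ m T i) (W : Finset (Fin n))
    (ih : ∀ C ∈ ch 𝒯 W, R1 K a m (fle 𝒯 C) C ∧ R2 K a m (fle 𝒯 C) C) :
    R2 K a m (flt 𝒯 W) W := by
  classical
  intro r ρ α hr hρ hα ht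
  have hα0 : ∀ j ∈ W.erase r, 0 ≤ α j := fun j hj =>
    (sum_nonneg fun T _ => tp_nonneg ha hm r j T).trans (hα j hj)
  rw [sum_ch hF W (fun T => dg K a m T)]
  have h1 : ∀ C ∈ ch 𝒯 W, ∑ T ∈ fle 𝒯 C, dg K a m T ≤
      ρ * VV K (C.erase r) + ∑ i ∈ (W.erase r).filter (fun i => i ∈ C), α i * hh K i (C.erase i) := by
    intro C hC
    have hCW := (mem_ch hC).2.1.subset
    have h3 : (W.erase r).filter (fun i => i ∈ C) = C.erase r := by
      ext i
      rw [mem_filter, mem_erase, mem_erase]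
      exact ⟨fun h => ⟨h.1.1, h.2⟩, fun h => ⟨⟨h.1, hCW h.2⟩, h.2⟩⟩
    rw [h3]
    by_cases hrC : r ∈ C
    · exact (ih C hC).2 r ρ α hrC hρ (fun j hj =>
        (fle_le_flt hC (tp a m r j) (tp_nonneg ha hm r j)).trans
          (hα j (erase_subset_erase r hCW hj)))
        (fun i hi j hj hij => (fle_le_flt hC (tp a m i j) (tp_nonneg ha hm i j)).trans
          (ht i (erase_subset_erase r hCW hi) j (erase_subset_erase r hCW hj) hij))
    · have hCr : ∀ i ∈ C, i ∈ W.erase r := fun i hi =>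
        mem_erase.2 ⟨fun h => hrC (h ▸ hi), hCW hi⟩
      rw [erase_eq_of_notMem hrC]
      exact (ih C hC).1 ρ α hρ (fun i hi => hα0 i (hCr i hi)) (fun i hi j hj hij =>
        (fle_le_flt hC (tp a m i j) (tp_nonneg ha hm i j)).trans
          (ht i (hCr i hi) j (hCr j hj) hij))
  refine (sum_le_sum h1).trans ?_
  rw [sum_add_distrib, swap_ch W (W.erase r) α (fun i C => hh K i (C.erase i)), ← mul_sum]
  have h4 := Vsup hK (ch 𝒯 W) (W.erase r) (fun C => C.erase r)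
    (fun C hC => erase_subset_erase r (mem_ch hC).2.1.subset)
    (fun C hC C' hC' hne => (card_le_card (by
      intro z hz
      rw [mem_inter, mem_erase, mem_erase] at hz
      exact mem_inter.2 ⟨hz.1.2, hz.2.2⟩)).trans (ch_pair hF hC hC' hne))
  have h5 : ∑ i ∈ W.erase r, α i * ∑ C ∈ (ch 𝒯 W).filter (fun C => i ∈ C), hh K i (C.erase i) ≤
      ∑ i ∈ W.erase r, α i * hh K i (W.erase i) :=
    sum_le_sum fun i hi => mul_le_mul_of_nonneg_left (row_ch hK hF W i) (hα0 i hi)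
  linarith [mul_le_mul_of_nonneg_left h4 hρ]

end Pool.Agent.Helper39.CN
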