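import Pool.Agent.Helper39.CN.Rec

/-!
# Project CN: one member, and the induction
-/

set_option autoImplicit false

namespace Pool.Agent.Helper39.CN

open Finset Pool.Agent.Helper88.CC Pool.Agent.Helper39.CB

variable {n : ℕ}

variable {K : Finset (Fin n) → ℝ} {a : Finset (Fin n) → ℝ} {m : Finset (Fin n) → Fin n → ℝ}

/-- one member of weight `τ` above the members of `F` -/
theorem core (hK : FNef K) (ha : ∀ T, 0 ≤ a T) (hm : ∀ T i, 0 ≤ m T i)
    {F : Finset (Finset (Fin n))} {W : Finset (Fin n)} (hW : W ≠ univ) (hne : W.Nonempty)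
    (h1 : R1 K a m F W) (h2 : R2 K a m F W) (τ : ℝ) (hτ : 0 ≤ τ) (α : Fin n → ℝ)
    (hα : ∀ i ∈ W, 0 ≤ α i)
    (ht : ∀ i ∈ W, ∀ j ∈ W, i ≠ j → τ + ∑ T ∈ F, tp a m i j T ≤ α i + α j) :
    τ * VV K W + ∑ T ∈ F, dg K a m T ≤ ∑ i ∈ W, α i * hh K i (W.erase i) := by
  have hhalf := VV_le_half hK hW hne
  by_cases hA : ∀ i ∈ W, τ / 2 ≤ α i
  · have h3 := h1 0 (fun i => α i - τ / 2) le_rfl (fun i hi => by linarith [hA i hi])
      (fun i hi j hj hij => by linarith [ht i hi j hj hij])
    have h4 : ∑ i ∈ W, (α i - τ / 2) * hh K i (W.erase i) =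
        ∑ i ∈ W, α i * hh K i (W.erase i) - τ / 2 * ∑ i ∈ W, hh K i (W.erase i) := by
      rw [mul_sum, ← sum_sub_distrib]
      apply sum_congr rfl
      intro i _
      ring
    rw [h4, zero_mul, zero_add] at h3
    have h5 := mul_le_mul_of_nonneg_left hhalf (by linarith : 0 ≤ τ / 2)
    linarith
  · push Not at hA
    obtain ⟨r, hr, hr2⟩ := hA
    have hr0 := hα r hr
    have htn : ∀ i j, 0 ≤ ∑ T ∈ F, tp a m i j T := fun i j =>
      sum_nonneg fun T _ => tp_nonneg ha hm i j T
    have h3 := h2 r (τ - 2 * α r) (fun j => α j - τ + α r) hr (by linarith)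
      (fun j hj => by
        rw [mem_erase] at hj
        have := ht r hr j hj.2 (fun h => hj.1 h.symm)
        linarith)
      (fun i hi j hj hij => by
        rw [mem_erase] at hi hj
        have := ht i hi.2 j hj.2 hij
        linarith)
    have h4 : ∑ j ∈ W.erase r, (α j - τ + α r) * hh K j (W.erase j) =
        ∑ j ∈ W.erase r, α j * hh K j (W.erase j) -
          (τ - α r) * ∑ j ∈ W.erase r, hh K j (W.erase j) := by
      rw [mul_sum, ← sum_sub_distrib]
      apply sum_congr rfl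
      intro i _
      ring
    rw [h4] at h3
    have h5 : ∑ i ∈ W, hh K i (W.erase i) =
        ∑ j ∈ W.erase r, hh K j (W.erase j) + hh K r (W.erase r) := (sum_erase_add W _ hr).symm
    have h6 : ∑ i ∈ W, α i * hh K i (W.erase i) =
        ∑ j ∈ W.erase r, α j * hh K j (W.erase j) + α r * hh K r (W.erase r) :=
      (sum_erase_add W (fun i => α i * hh K i (W.erase i)) hr).symm
    have h7 := VV_erase (K := K) hr
    rw [h5] at hhalf
    rw [h6]
    have h8 := mul_le_mul_of_nonneg_left hhalf (by linarith : 0 ≤ τ - α r)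
    nlinarith

theorem tp_comm (i j : Fin n) (T : Finset (Fin n)) : tp a m i j T = tp a m j i T := by
  unfold tp
  by_cases h : i ∈ T ∧ j ∈ T
  · rw [if_pos h, if_pos ⟨h.2, h.1⟩, erase_right_comm]
  · rw [if_neg h, if_neg (fun h' => h ⟨h'.2, h'.1⟩)]

theorem tp_of_mem {i j : Fin n} {W : Finset (Fin n)} (hi : i ∈ W) (hj : j ∈ W) (hij : i ≠ j) :
    tp a m i j W = a W + ∑ l ∈ W, m W l - m W i - m W j := by
  unfold tp
  rw [if_pos ⟨hi, hj⟩]
  have h1 := sum_erase_add W (fun l => m W l) hi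
  have h2 := sum_erase_add (W.erase i) (fun l => m W l) (mem_erase.2 ⟨fun h => hij h.symm, hj⟩)
  linarith

theorem dg_eq {W : Finset (Fin n)} : dg K a m W =
    (a W + ∑ l ∈ W, m W l) * VV K W - ∑ i ∈ W, m W i * hh K i (W.erase i) := by
  unfold dg
  have h1 : ∑ i ∈ W, m W i * VV K (W.erase i) =
      ∑ i ∈ W, (m W i * VV K W - m W i * hh K i (W.erase i)) := by
    apply sum_congr rfl
    intro i hi
    rw [VV_erase (K := K) hi]
    ring
  rw [h1, sum_sub_distrib, ← sum_mul]
  ring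

theorem fle_eq {𝒯 : Finset (Finset (Fin n))} {W : Finset (Fin n)} (hW : W ∈ 𝒯)
    (g : Finset (Fin n) → ℝ) : ∑ T ∈ fle 𝒯 W, g T = g W + ∑ T ∈ flt 𝒯 W, g T := by
  classical
  have h1 : fle 𝒯 W = insert W (flt 𝒯 W) := by
    ext T
    rw [mem_insert, mem_fle, mem_flt]
    constructor
    · rintro ⟨h1, h2⟩
      rcases h2.eq_or_ssubset with h | h
      · exact Or.inl h
      · exact Or.inr ⟨h1, h⟩
    · rintro (rfl | ⟨h1, h2⟩)
      · exact ⟨hW, Subset.refl _⟩
      · exact ⟨h1, h2.subset⟩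
  rw [h1, sum_insert (fun h => (mem_flt.1 h).2.ne rfl)]

/-- the step at a member, first form -/
theorem step1 (hK : FNef K) (ha : ∀ T, 0 ≤ a T) (hm : ∀ T i, 0 ≤ m T i)
    {𝒯 : Finset (Finset (Fin n))} (hF : Fam 𝒯) {W : Finset (Fin n)} (hW : W ∈ 𝒯)
    (h1 : R1 K a m (flt 𝒯 W) W) (h2 : R2 K a m (flt 𝒯 W) W) : R1 K a m (fle 𝒯 W) W := by
  intro ρ α hρ hα ht
  have hne : W.Nonempty := card_pos.1 (by have := hF.two W hW; omega)
  set M : ℝ := ∑ l ∈ W, m W l with hM
  have hM0 : 0 ≤ M := sum_nonneg fun l _ => hm W l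
  have ht' : ∀ i ∈ W, ∀ j ∈ W, i ≠ j → (a W + M) + ∑ T ∈ flt 𝒯 W, tp a m i j T ≤
      (α i + m W i) + (α j + m W j) + ρ := by
    intro i hi j hj hij
    have h3 := ht i hi j hj hij
    rw [fle_eq hW, tp_of_mem hi hj hij] at h3
    linarith
  rw [fle_eq hW, dg_eq]
  have h3 : ∑ i ∈ W, (α i + m W i) * hh K i (W.erase i) =
      ∑ i ∈ W, α i * hh K i (W.erase i) + ∑ i ∈ W, m W i * hh K i (W.erase i) := by
    rw [← sum_add_distrib]
    apply sum_congr rfl
    intro i _
    ring
  have haM : 0 ≤ a W + M := add_nonneg (ha W) hM0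
  by_cases hc : a W + M ≤ ρ
  · have h4 := h1 (ρ - (a W + M)) (fun i => α i + m W i) (by linarith)
      (fun i hi => add_nonneg (hα i hi) (hm W i))
      (fun i hi j hj hij => by
        have := ht' i hi j hj hij
        linarith)
    rw [h3] at h4
    linarith
  · have h4 := core hK ha hm (hF.top W hW) hne h1 h2 (a W + M - ρ) (by linarith)
      (fun i => α i + m W i) (fun i hi => add_nonneg (hα i hi) (hm W i))
      (fun i hi j hj hij => by
        have := ht' i hi j hj hij
        linarith)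
    rw [h3] at h4
    linarith

/-- the step at a member, second form -/
theorem step2 (hK : FNef K) (ha : ∀ T, 0 ≤ a T) (hm : ∀ T i, 0 ≤ m T i)
    {𝒯 : Finset (Finset (Fin n))} (hF : Fam 𝒯) {W : Finset (Fin n)} (hW : W ∈ 𝒯)
    (h1 : R1 K a m (flt 𝒯 W) W) (h2 : R2 K a m (flt 𝒯 W) W) : R2 K a m (fle 𝒯 W) W := by
  intro r ρ α hr hρ hα ht
  have hne : W.Nonempty := card_pos.1 (by have := hF.two W hW; omega)
  set M : ℝ := ∑ l ∈ W, m W l with hM
  have hmr : m W r ≤ M := single_le_sum (fun l _ => hm W l) hr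
  have hMr : M = ∑ l ∈ W.erase r, m W l + m W r := (sum_erase_add W (fun l => m W l) hr).symm
  have ht1 : ∀ j ∈ W.erase r, (a W + M) + ∑ T ∈ flt 𝒯 W, tp a m r j T ≤
      m W r + (α j + m W j) := by
    intro j hj
    have h3 := hα j hj
    rw [mem_erase] at hj
    rw [fle_eq hW, tp_of_mem hr hj.2 (fun h => hj.1 h.symm)] at h3
    linarith
  have ht2 : ∀ i ∈ W.erase r, ∀ j ∈ W.erase r, i ≠ j →
      (a W + M) + ∑ T ∈ flt 𝒯 W, tp a m i j T ≤ (α i + m W i) + (α j + m W j) + ρ := by
    intro i hi j hj hij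
    have h3 := ht i hi j hj hij
    rw [mem_erase] at hi hj
    rw [fle_eq hW, tp_of_mem hi.2 hj.2 hij] at h3
    linarith
  have hαn : ∀ j ∈ W.erase r, 0 ≤ α j := fun j hj =>
    (sum_nonneg fun T _ => tp_nonneg ha hm r j T).trans (hα j hj)
  have haM : 0 ≤ a W + M - m W r := by linarith [ha W]
  rw [fle_eq hW, dg_eq]
  have hVr := VV_erase (K := K) hr
  have e1 : ∑ i ∈ W, m W i * hh K i (W.erase i) =
      ∑ j ∈ W.erase r, m W j * hh K j (W.erase j) + m W r * hh K r (W.erase r) :=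
    (sum_erase_add W (fun i => m W i * hh K i (W.erase i)) hr).symm
  by_cases hc : ρ ≤ m W r
  · have h4 := core hK ha hm (hF.top W hW) hne h1 h2 (a W + M - ρ) (by linarith)
      (fun i => if i = r then m W r - ρ else α i + m W i)
      (fun i hi => by
        by_cases h : i = r
        · rw [if_pos h]
          linarith
        · rw [if_neg h]
          exact add_nonneg (hαn i (mem_erase.2 ⟨h, hi⟩)) (hm W i))
      (fun i hi j hj hij => by
        by_cases h : i = r
        · subst h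
          have h5 := ht1 j (mem_erase.2 ⟨fun h => hij h.symm, hj⟩)
          rw [if_pos rfl, if_neg (fun h => hij h.symm)]
          linarith
        · by_cases h' : j = r
          · subst h'
            have h5 := ht1 i (mem_erase.2 ⟨h, hi⟩)
            have h6 : ∑ T ∈ flt 𝒯 W, tp a m i j T = ∑ T ∈ flt 𝒯 W, tp a m j i T := by
              apply sum_congr rfl
              intro T _
              exact tp_comm i j T
            rw [if_pos rfl, if_neg h, h6]
            linarith
          · have h5 := ht2 i (mem_erase.2 ⟨h, hi⟩) j (mem_erase.2 ⟨h', hj⟩) hij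
            rw [if_neg h, if_neg h']
            linarith)
    have e2 : ∑ i ∈ W, (if i = r then m W r - ρ else α i + m W i) * hh K i (W.erase i) =
        ∑ j ∈ W.erase r, (α j + m W j) * hh K j (W.erase j) +
          (m W r - ρ) * hh K r (W.erase r) := by
      rw [← sum_erase_add W _ hr]
      congr 1
      · apply sum_congr rfl
        intro j hj
        rw [if_neg (mem_erase.1 hj).1]
      · rw [if_pos rfl]
    have e3 : ∑ j ∈ W.erase r, (α j + m W j) * hh K j (W.erase j) =
        ∑ j ∈ W.erase r, α j * hh K j (W.erase j) +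
          ∑ j ∈ W.erase r, m W j * hh K j (W.erase j) := by
      rw [← sum_add_distrib]
      apply sum_congr rfl
      intro i _
      ring
    rw [e2, e3] at h4
    rw [e1]
    have e4 : ρ * VV K (W.erase r) = ρ * VV K W - ρ * hh K r (W.erase r) := by
      rw [hVr]
      ring
    rw [e4]
    linarith
  · set τ : ℝ := a W + M - m W r with hτ
    have h4 := h2 r (ρ - m W r + τ) (fun j => α j + m W j - τ) hr (by linarith)
      (fun j hj => by
        have := ht1 j hj
        linarith)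
      (fun i hi j hj hij => by
        have := ht2 i hi j hj hij
        linarith)
    have e3 : ∑ j ∈ W.erase r, (α j + m W j - τ) * hh K j (W.erase j) =
        ∑ j ∈ W.erase r, α j * hh K j (W.erase j) +
          ∑ j ∈ W.erase r, m W j * hh K j (W.erase j) -
          τ * ∑ j ∈ W.erase r, hh K j (W.erase j) := by
      rw [← sum_add_distrib, mul_sum, ← sum_sub_distrib]
      apply sum_congr rfl
      intro i _
      ring
    rw [e3] at h4
    have hhalf := VV_le_half hK (hF.top W hW) hne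
    have h5 : ∑ i ∈ W, hh K i (W.erase i) =
        ∑ j ∈ W.erase r, hh K j (W.erase j) + hh K r (W.erase r) := (sum_erase_add W _ hr).symm
    rw [h5] at hhalf
    have h6 := mul_le_mul_of_nonneg_left hhalf haM
    rw [e1]
    have e4 : a W + M = τ + m W r := by rw [hτ]; ring
    rw [e4]
    nlinarith

/-- the main induction -/
theorem main_ind (hK : FNef K) (ha : ∀ T, 0 ≤ a T) (hm : ∀ T i, 0 ≤ m T i)
    {𝒯 : Finset (Finset (Fin n))} (hF : Fam 𝒯) : ∀ W : Finset (Fin n), W ∈ 𝒯 →
    R1 K a m (fle 𝒯 W) W ∧ R2 K a m (fle 𝒯 W) W := by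
  intro W
  induction W using Finset.strongInduction with
  | H W ih =>
    intro hW
    have h0 : ∀ C ∈ ch 𝒯 W, R1 K a m (fle 𝒯 C) C ∧ R2 K a m (fle 𝒯 C) C := fun C hC =>
      ih C (mem_ch hC).2.1 (mem_ch hC).1
    have h1 := split1 hK hF ha hm W (fun C hC => (h0 C hC).1)
    have h2 := split2 hK hF ha hm W h0
    exact ⟨step1 hK ha hm hF hW h1 h2, step2 hK ha hm hF hW h1 h2⟩

/-- the two claims for the whole family -/
theorem whole (hK : FNef K) (ha : ∀ T, 0 ≤ a T) (hm : ∀ T i, 0 ≤ m T i)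
    {𝒯 : Finset (Finset (Fin n))} (hF : Fam 𝒯) : R1 K a m 𝒯 univ ∧ R2 K a m 𝒯 univ := by
  have h0 : ∀ C ∈ ch 𝒯 univ, R1 K a m (fle 𝒯 C) C ∧ R2 K a m (fle 𝒯 C) C := fun C hC =>
    main_ind hK ha hm hF C (mem_ch hC).1
  have h1 := split1 hK hF ha hm univ (fun C hC => (h0 C hC).1)
  have h2 := split2 hK hF ha hm univ h0
  have e : flt 𝒯 univ = 𝒯 := by
    ext T
    rw [mem_flt]
    exact ⟨fun h => h.1, fun h => ⟨h, lt_of_le_of_ne (subset_univ T) (hF.top T h)⟩⟩
  rw [e] at h1 h2
  exact ⟨h1, h2⟩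

end Pool.Agent.Helper39.CN
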