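import Pool.Agent.Helper39.CB.Loc

/-!
# Project CN: superadditivity of an F-nef class on families of almost disjoint sets
-/

set_option autoImplicit false

namespace Pool.Agent.Helper39.CN

open Finset Pool.Agent.Helper88.CC Pool.Agent.Helper39.CB

variable {n : ℕ}

theorem hh_empty {K : Finset (Fin n) → ℝ} (hK : FNef K) (i : Fin n) : hh K i ∅ = 0 := by
  unfold hh
  rw [hK.empty, sum_empty]
  have e : (insert i ∅ : Finset (Fin n)) = {i} := rfl
  rw [e, hK.singleton]
  norm_num

theorem hh_union {K : Finset (Fin n) → ℝ} (hK : FNef K) {i : Fin n} {A B : Finset (Fin n)}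
    (hA : i ∉ A) (hB : i ∉ B) (hAB : Disjoint A B) : hh K i A + hh K i B ≤ hh K i (A ∪ B) := by
  rcases A.eq_empty_or_nonempty with h | h
  · rw [h, hh_empty hK, empty_union]
    linarith
  rcases B.eq_empty_or_nonempty with h' | h'
  · rw [h', hh_empty hK, union_empty]
    linarith
  have h1 := sub_two hK {i} A B (singleton_nonempty i) h h' (by rwa [disjoint_singleton_left])
    (by rwa [disjoint_singleton_left]) hAB
  rw [hK.singleton] at h1
  unfold hh
  rw [sum_union hAB]
  have e1 : ({i} ∪ (A ∪ B) : Finset (Fin n)) = insert i (A ∪ B) := rfl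
  have e2 : ({i} ∪ A : Finset (Fin n)) = insert i A := rfl
  have e3 : ({i} ∪ B : Finset (Fin n)) = insert i B := rfl
  rw [e1, e2, e3] at h1
  linarith

theorem hh_nn {K : Finset (Fin n) → ℝ} (hK : FNef K) {i : Fin n} (A : Finset (Fin n)) :
    i ∉ A → 0 ≤ hh K i A := by
  classical
  induction A using Finset.induction_on with
  | empty =>
    intro _
    rw [hh_empty hK]
  | insert j U hj ih =>
    intro hi
    rw [mem_insert, not_or] at hi
    have h1 := hh_union hK (i := i) (A := {j}) (B := U) (by rw [mem_singleton]; exact hi.1) hi.2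
      (by rwa [disjoint_singleton_left])
    rw [hh_singleton hK] at h1
    have e : ({j} ∪ U : Finset (Fin n)) = insert j U := rfl
    rw [e] at h1
    linarith [ih hi.2]

theorem hh_mon {K : Finset (Fin n) → ℝ} (hK : FNef K) {i : Fin n} {A B : Finset (Fin n)}
    (hB : i ∉ B) (hAB : A ⊆ B) : hh K i A ≤ hh K i B := by
  have h1 := hh_union hK (i := i) (A := A) (B := B \ A) (fun h => hB (hAB h))
    (fun h => hB (mem_sdiff.1 h).1) disjoint_sdiff
  rw [union_sdiff_of_subset hAB] at h1
  have h2 := hh_nn hK (i := i) (B \ A) (fun h => hB (mem_sdiff.1 h).1)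
  linarith

/-- superadditivity over a family of disjoint sets -/
theorem hsup {K : Finset (Fin n) → ℝ} (hK : FNef K) {i : Fin n} {ι : Type*} [DecidableEq ι]
    (P : Finset ι) (f : ι → Finset (Fin n)) : ∀ U : Finset (Fin n), i ∉ U → (∀ x ∈ P, f x ⊆ U) →
    (∀ x ∈ P, ∀ y ∈ P, x ≠ y → Disjoint (f x) (f y)) → ∑ x ∈ P, hh K i (f x) ≤ hh K i U := by
  induction P using Finset.induction_on with
  | empty =>
    intro U hU _ _
    rw [sum_empty]
    exact hh_nn hK U hU
  | insert p P hp ih =>
    intro U hU h1 h2
    rw [sum_insert hp]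
    have hpU := h1 p (mem_insert_self p P)
    have h3 := ih (U \ f p) (fun h => hU (mem_sdiff.1 h).1) (fun x hx y hy => by
        rw [mem_sdiff]
        refine ⟨h1 x (mem_insert_of_mem hx) hy, fun h => ?_⟩
        exact disjoint_left.1 (h2 x (mem_insert_of_mem hx) p (mem_insert_self p P)
          (fun h => hp (h ▸ hx))) hy h)
      (fun x hx y hy => h2 x (mem_insert_of_mem hx) y (mem_insert_of_mem hy))
    have h4 := hh_union hK (i := i) (A := f p) (B := U \ f p) (fun h => hU (hpU h))
      (fun h => hU (mem_sdiff.1 h).1) disjoint_sdiff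
    rw [union_sdiff_of_subset hpU] at h4
    linarith

theorem VV_erase {K : Finset (Fin n) → ℝ} {i : Fin n} {S : Finset (Fin n)} (hi : i ∈ S) :
    VV K S = VV K (S.erase i) + hh K i (S.erase i) := by
  have h := VV_insert (K := K) (notMem_erase i S)
  rwa [insert_erase hi] at h

theorem VV_empty {K : Finset (Fin n) → ℝ} (hK : FNef K) : VV K ∅ = 0 := by
  unfold VV
  rw [hK.empty]
  have : powersetCard 2 (∅ : Finset (Fin n)) = ∅ := by
    apply powersetCard_eq_empty.2
    simp
  rw [this, sum_empty]
  norm_num

/-- superadditivity over a family of sets which meet pairwise in at most one point -/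
theorem Vsup {K : Finset (Fin n) → ℝ} (hK : FNef K) {ι : Type*} [DecidableEq ι] (P : Finset ι)
    (W : Finset (Fin n)) : ∀ f : ι → Finset (Fin n), (∀ x ∈ P, f x ⊆ W) →
    (∀ x ∈ P, ∀ y ∈ P, x ≠ y → (f x ∩ f y).card ≤ 1) → ∑ x ∈ P, VV K (f x) ≤ VV K W := by
  classical
  induction W using Finset.induction_on with
  | empty =>
    intro f h1 _
    rw [VV_empty hK]
    apply le_of_eq
    apply sum_eq_zero
    intro x hx
    rw [subset_empty.1 (h1 x hx), VV_empty hK]
  | insert w W hw ih =>
    intro f h1 h2
    have h3 := ih (fun x => (f x).erase w) (fun x hx y hy => by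
        rw [mem_erase] at hy
        exact (mem_insert.1 (h1 x hx hy.2)).resolve_left hy.1)
      (fun x hx y hy hxy => (card_le_card (by
        intro z hz
        rw [mem_inter, mem_erase, mem_erase] at hz
        exact mem_inter.2 ⟨hz.1.2, hz.2.2⟩)).trans (h2 x hx y hy hxy))
    have h4 := hsup hK (i := w) (P.filter (fun x => w ∈ f x)) (fun x => (f x).erase w) W hw
      (fun x hx y hy => by
        rw [mem_erase] at hy
        exact (mem_insert.1 (h1 x (mem_filter.1 hx).1 hy.2)).resolve_left hy.1)
      (fun x hx y hy hxy => by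
        rw [mem_filter] at hx hy
        rw [disjoint_left]
        intro z hz hz'
        rw [mem_erase] at hz hz'
        have h5 : ({w, z} : Finset (Fin n)) ⊆ f x ∩ f y := by
          intro u hu
          rw [mem_insert, mem_singleton] at hu
          rw [mem_inter]
          rcases hu with rfl | rfl
          · exact ⟨hx.2, hy.2⟩
          · exact ⟨hz.2, hz'.2⟩
        have h6 := card_le_card h5
        rw [card_pair (fun h => hz.1 h.symm)] at h6
        have := h2 x hx.1 y hy.1 hxy
        omega)
    rw [VV_insert hw]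
    have h5 : ∑ x ∈ P, VV K (f x) = ∑ x ∈ P, VV K ((f x).erase w) +
        ∑ x ∈ P.filter (fun x => w ∈ f x), hh K w ((f x).erase w) := by
      rw [sum_filter, ← sum_add_distrib]
      apply sum_congr rfl
      intro x _
      by_cases h : w ∈ f x
      · rw [if_pos h]
        exact VV_erase h
      · rw [if_neg h, erase_eq_of_notMem h, add_zero]
    rw [h5]
    linarith

end Pool.Agent.Helper39.CN
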